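import Pool.Agent.Helper21.D2.Stmts

/-!
# D2: module SML
-/

set_option autoImplicit false

namespace Pool.Agent.Helper21.TH.SML3

open Matrix Pool.Agent.Helper82.AHS

variable {r : ℕ} {K : Type*} [Field K]

lemma sum_two (f : (Fin 2 → Fin r) → K) :
    ∑ a, f a = ∑ x, ∑ y, f ![x, y] := by
  rw [← (finTwoArrowEquiv (Fin r)).symm.sum_comp, Fintype.sum_prod_type]
  rfl

lemma left_sum (g U : Matrix (Fin r) (Fin r) K) (i : Fin 2 → Fin r) :
    ∑ a : Fin 2 → Fin r, (∏ t, g (i t) (a t)) * U (a 0) (a 1) = (g * U * gᵀ) (i 0) (i 1) := by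
  rw [sum_two]
  simp only [Matrix.mul_apply, Matrix.transpose_apply, Fin.prod_univ_two, Finset.sum_mul]
  rw [Finset.sum_comm]
  refine Finset.sum_congr rfl fun x _ => Finset.sum_congr rfl fun y _ => ?_
  simp only [Matrix.cons_val_zero, Matrix.cons_val_one]
  ring

lemma right_sum (h V : Matrix (Fin r) (Fin r) K) (j : Fin 2 → Fin r) :
    ∑ b : Fin 2 → Fin r, V (b 0) (b 1) * ∏ t, h (b t) (j t) = (hᵀ * V * h) (j 0) (j 1) := by
  rw [sum_two]
  simp only [Matrix.mul_apply, Matrix.transpose_apply, Fin.prod_univ_two, Finset.sum_mul]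
  rw [Finset.sum_comm]
  refine Finset.sum_congr rfl fun x _ => Finset.sum_congr rfl fun y _ => ?_
  simp only [Matrix.cons_val_zero, Matrix.cons_val_one]
  ring

lemma act_two [Algebra ℚ K] (g : GL (Fin r) K) (Q : Matrix (Fin r) (Fin r) ℚ)
    (i j : Fin 2 → Fin r) :
    act g (up K (polT Q)) i j =
      ((g : Matrix (Fin r) (Fin r) K) * Q⁻¹.map (algebraMap ℚ K) *
        (g : Matrix (Fin r) (Fin r) K)ᵀ) (i 0) (i 1) *
      (((g⁻¹ : GL (Fin r) K) : Matrix (Fin r) (Fin r) K)ᵀ * Q.map (algebraMap ℚ K) *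
        ((g⁻¹ : GL (Fin r) K) : Matrix (Fin r) (Fin r) K)) (j 0) (j 1) := by
  rw [← left_sum, ← right_sum]
  simp only [act, Matrix.mul_apply, pw, pwf, up, polT, Matrix.of_apply, Matrix.map_apply,
    map_mul]
  rw [Finset.sum_mul_sum, Finset.sum_comm]
  refine Finset.sum_congr rfl fun a _ => ?_
  rw [Finset.sum_mul]
  refine Finset.sum_congr rfl fun b _ => ?_
  ring

lemma act_form [Algebra ℚ K] (g : GL (Fin r) K) (Q : Matrix (Fin r) (Fin r) ℚ)
    (i : Fin 0 → Fin r) (j : Fin 2 → Fin r) :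
    act g (up K (formT Q)) i j =
      (((g⁻¹ : GL (Fin r) K) : Matrix (Fin r) (Fin r) K)ᵀ * Q.map (algebraMap ℚ K) *
        ((g⁻¹ : GL (Fin r) K) : Matrix (Fin r) (Fin r) K)) (j 0) (j 1) := by
  rw [← right_sum]
  simp [act, Matrix.mul_apply, pw, pwf, up, formT]

lemma conj_back (g : GL (Fin r) K) (A A' : Matrix (Fin r) (Fin r) K) (c : K)
    (h : A' = c • (((g⁻¹ : GL (Fin r) K) : Matrix (Fin r) (Fin r) K)ᵀ * A *
        ((g⁻¹ : GL (Fin r) K) : Matrix (Fin r) (Fin r) K))) :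
    (g : Matrix (Fin r) (Fin r) K)ᵀ * A' * (g : Matrix (Fin r) (Fin r) K) = c • A := by
  have h1 : ((g⁻¹ : GL (Fin r) K) : Matrix (Fin r) (Fin r) K) *
      (g : Matrix (Fin r) (Fin r) K) = 1 := by
    rw [← Units.val_mul, inv_mul_cancel, Units.val_one]
  have h2 : (g : Matrix (Fin r) (Fin r) K)ᵀ *
      ((g⁻¹ : GL (Fin r) K) : Matrix (Fin r) (Fin r) K)ᵀ = 1 := by
    rw [← Matrix.transpose_mul, h1, Matrix.transpose_one]
  rw [h, Matrix.mul_smul, Matrix.smul_mul]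
  congr 1
  calc (g : Matrix (Fin r) (Fin r) K)ᵀ *
      (((g⁻¹ : GL (Fin r) K) : Matrix (Fin r) (Fin r) K)ᵀ * A *
        ((g⁻¹ : GL (Fin r) K) : Matrix (Fin r) (Fin r) K)) * (g : Matrix (Fin r) (Fin r) K)
      = ((g : Matrix (Fin r) (Fin r) K)ᵀ *
      ((g⁻¹ : GL (Fin r) K) : Matrix (Fin r) (Fin r) K)ᵀ) * A *
        (((g⁻¹ : GL (Fin r) K) : Matrix (Fin r) (Fin r) K) *
          (g : Matrix (Fin r) (Fin r) K)) := by simp only [Matrix.mul_assoc]
    _ = A := by rw [h1, h2, Matrix.one_mul, Matrix.mul_one]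

end Pool.Agent.Helper21.TH.SML3

namespace Pool.Agent.Helper21.TH

open Matrix Pool.Agent.Helper82.AHS SML3

theorem st_SML : ST_SML := by
  intro r K _ _ Q Q' g hQ hQ'
  have hinj : Function.Injective (algebraMap ℚ K) := (algebraMap ℚ K).injective
  constructor
  · intro h
    rcases Nat.eq_zero_or_pos r with hr | hr
    · subst hr
      exact ⟨1, one_ne_zero, Subsingleton.elim _ _⟩
    have : Nonempty (Fin r) := ⟨⟨0, hr⟩⟩
    have hQi : Q'⁻¹ ≠ 0 := by
      intro h0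
      have : Q' * Q'⁻¹ = 1 := Matrix.mul_nonsing_inv _ (isUnit_iff_ne_zero.mpr hQ')
      rw [h0, Matrix.mul_zero] at this
      exact zero_ne_one this
    have hQ0 : Q' ≠ 0 := by
      intro h0
      exact hQ' (by rw [h0, Matrix.det_zero])
    obtain ⟨i₀, i₁, hi⟩ : ∃ i₀ i₁, Q'⁻¹ i₀ i₁ ≠ 0 := by
      by_contra hc
      push Not at hc
      exact hQi (by ext a b; exact hc a b)
    have key : ∀ a b c d : Fin r, algebraMap ℚ K (Q'⁻¹ a b) * algebraMap ℚ K (Q' c d) =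
        ((g : Matrix (Fin r) (Fin r) K) * Q⁻¹.map (algebraMap ℚ K) *
          (g : Matrix (Fin r) (Fin r) K)ᵀ) a b *
        (((g⁻¹ : GL (Fin r) K) : Matrix (Fin r) (Fin r) K)ᵀ * Q.map (algebraMap ℚ K) *
          ((g⁻¹ : GL (Fin r) K) : Matrix (Fin r) (Fin r) K)) c d := by
      intro a b c d
      have h1 := congrFun (congrFun h ![a, b]) ![c, d]
      rw [act_two] at h1
      rw [← map_mul]
      exact h1
    have hne : algebraMap ℚ K (Q'⁻¹ i₀ i₁) ≠ 0 := by
      rw [Ne, map_eq_zero]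
      exact hi
    set c : K := ((g : Matrix (Fin r) (Fin r) K) * Q⁻¹.map (algebraMap ℚ K) *
          (g : Matrix (Fin r) (Fin r) K)ᵀ) i₀ i₁ / algebraMap ℚ K (Q'⁻¹ i₀ i₁) with hc
    have hA : Q'.map (algebraMap ℚ K) =
        c • (((g⁻¹ : GL (Fin r) K) : Matrix (Fin r) (Fin r) K)ᵀ * Q.map (algebraMap ℚ K) *
          ((g⁻¹ : GL (Fin r) K) : Matrix (Fin r) (Fin r) K)) := by
      ext a b
      have h1 := key i₀ i₁ a b
      rw [Matrix.smul_apply, smul_eq_mul, Matrix.map_apply, hc, div_mul_eq_mul_div,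
        eq_div_iff hne, mul_comm, h1]
    refine ⟨c, ?_, conj_back g _ _ c hA⟩
    intro h0
    rw [h0, zero_smul] at hA
    apply hQ0
    ext a b
    have := congrFun (congrFun hA a) b
    rw [Matrix.map_apply, Matrix.zero_apply, map_eq_zero] at this
    rw [this, Matrix.zero_apply]
  · intro h
    have hA : Q'.map (algebraMap ℚ K) =
        (1 : K) • (((g⁻¹ : GL (Fin r) K) : Matrix (Fin r) (Fin r) K)ᵀ *
          Q.map (algebraMap ℚ K) * ((g⁻¹ : GL (Fin r) K) : Matrix (Fin r) (Fin r) K)) := by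
      rw [one_smul]
      ext a b
      have h1 := congrFun (congrFun h Fin.elim0) ![a, b]
      rw [act_form] at h1
      simpa [up, formT] using h1
    have := conj_back g _ _ 1 hA
    rwa [one_smul] at this

end Pool.Agent.Helper21.TH
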